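import Mathlib
import Pool.Agent.L7h94.FE.Group
import Pool.Agent.W524.SP.Bridge

/-!
# Multiplicative relations between Weil numbers and relations between their slopes
-/

set_option autoImplicit false
set_option linter.unusedSectionVars false

namespace Pool.Agent.L7h94.FP

open NumberField Module Pool.Agent.H485R3 Pool.Agent.W524.SP

noncomputable section

variable {p : ℕ} [Fact p.Prime]

theorem slope_one' (b : ℕ) : slope p b (1 : PadicAlgCl p) = 0 := by
  unfold Pool.Agent.W524.SP.slope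
  rw [norm_one, Real.logb_one, neg_zero]

theorem slope_pow (b : ℕ) {x : PadicAlgCl p} (hx : x ≠ 0) (n : ℕ) :
    slope p b (x ^ n) = n * slope p b x := by
  induction n with
  | zero => rw [pow_zero, slope_one', Nat.cast_zero, zero_mul]
  | succ n ih =>
    rw [pow_succ, slope_mul p b _ _ (pow_ne_zero n hx) hx, ih]
    push_cast
    ring

theorem slope_prod (b : ℕ) {ι : Type} (s : Finset ι) (f : ι → PadicAlgCl p)
    (hf : ∀ i ∈ s, f i ≠ 0) : slope p b (∏ i ∈ s, f i) = ∑ i ∈ s, slope p b (f i) := by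
  classical
  induction s using Finset.induction_on with
  | empty => rw [Finset.prod_empty, Finset.sum_empty, slope_one']
  | insert i s hi ih =>
    rw [Finset.prod_insert hi, Finset.sum_insert hi, slope_mul p b _ _
      (hf i (Finset.mem_insert_self i s))
      (Finset.prod_ne_zero_iff.2 fun j hj => hf j (Finset.mem_insert_of_mem hj)),
      ih fun j hj => hf j (Finset.mem_insert_of_mem hj)]

theorem norm_eq_one_of_slope {b : ℕ} (hb : 0 < b) {x : PadicAlgCl p} (hx : x ≠ 0)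
    (h : slope p b x = 0) : ‖x‖ = 1 := by
  have hp1 : (1 : ℝ) < (p : ℝ) ^ b :=
    one_lt_pow₀ (by exact_mod_cast (Fact.out : p.Prime).one_lt) hb.ne'
  unfold Pool.Agent.W524.SP.slope at h
  have h1 : Real.logb ((p : ℝ) ^ b) ‖x‖ = Real.logb ((p : ℝ) ^ b) 1 := by
    rw [Real.logb_one]
    linarith
  exact Real.logb_injOn_pos hp1 (Set.mem_Ioi.2 (norm_pos_iff.2 hx)) (Set.mem_Ioi.2 one_pos) h1

variable {L : Type} [Field L] [NumberField L] [IsGalois ℚ L]

/-- A Weil number of weight `b`. -/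
structure IsWeil (p b : ℕ) (x : L) : Prop where
  int : IsIntegral ℤ x
  weil : ∀ φ : L →+* ℂ, ‖φ x‖ ^ 2 = (p : ℝ) ^ b

theorem IsWeil.ne_zero {b : ℕ} {x : L} (h : IsWeil p b x) : x ≠ 0 := by
  rintro rfl
  obtain ⟨φ⟩ : Nonempty (L →+* ℂ) := inferInstance
  have h1 := h.weil φ
  rw [map_zero, norm_zero] at h1
  have h2 : (0 : ℝ) < (p : ℝ) ^ b := by
    have := (Fact.out : p.Prime).pos
    positivity
  rw [← h1] at h2
  norm_num at h2

theorem IsWeil.gal {b : ℕ} {x : L} (h : IsWeil p b x) (σ : L ≃ₐ[ℚ] L) : IsWeil p b (σ x) :=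
  ⟨h.int.map ((σ : L →+* L).toIntAlgHom), fun φ => h.weil (φ.comp (σ : L →+* L))⟩

theorem IsWeil.pow {b : ℕ} {x : L} (h : IsWeil p b x) (T : ℕ) : IsWeil p (b * T) (x ^ T) := by
  refine ⟨h.int.pow T, fun φ => ?_⟩
  rw [map_pow, norm_pow, ← pow_mul, mul_comm T 2, pow_mul, h.weil φ, pow_mul]

/-- complex conjugation -/
theorem exists_conj' : ∃ c : L ≃ₐ[ℚ] L, ∀ (b : ℕ) (x : L), IsWeil p b x →
    x * c x = (p : L) ^ b := by
  obtain ⟨j⟩ : Nonempty (L →+* ℂ) := inferInstance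
  obtain ⟨c, hc⟩ := exists_conj j.toRatAlgHom
  refine ⟨c, fun b x hx => ?_⟩
  apply j.injective
  have h1 : j (c x) = starRingEnd ℂ (j x) := (hc x).symm
  rw [map_mul, h1, Complex.mul_conj, map_pow, map_natCast, Complex.normSq_eq_norm_sq, hx.weil j]
  push_cast
  rfl

theorem IsWeil.norm_other {b : ℕ} {x : L} (h : IsWeil p b x) (l : ℕ) [Fact l.Prime] (hl : l ≠ p)
    (e : L →+* PadicAlgCl l) : ‖e x‖ = 1 := by
  obtain ⟨c, hc⟩ := exists_conj' (p := p) (L := L)
  have hmul := hc b x h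
  have h1 : ‖e x‖ ≤ 1 := norm_le_one_of_isIntegral l _ (h.int.map e.toIntAlgHom)
  have h2 : ‖e (c x)‖ ≤ 1 := norm_le_one_of_isIntegral l _ ((h.gal c).int.map e.toIntAlgHom)
  have h3 : ‖e x‖ * ‖e (c x)‖ = 1 := by
    rw [← norm_mul, ← map_mul, hmul, map_pow, map_natCast, norm_pow]
    have h4 : ‖((p : ℕ) : PadicAlgCl l)‖ = 1 := by
      have h5 : ((p : ℕ) : PadicAlgCl l) = algebraMap ℚ_[l] (PadicAlgCl l) (p : ℚ_[l]) := by simp
      rw [h5, PadicAlgCl.norm_extends]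
      rw [Padic.norm_natCast_eq_one_iff]
      exact (Nat.coprime_primes (Fact.out : l.Prime) (Fact.out : p.Prime)).2 hl
    rw [h4, one_pow]
  have hpos : 0 < ‖e x‖ := by
    rcases (norm_nonneg (e x)).eq_or_lt with h4 | h4
    · rw [← h4, zero_mul] at h3
      exact absurd h3 zero_ne_one
    · exact h4
  refine le_antisymm h1 ?_
  calc (1 : ℝ) = ‖e x‖ * ‖e (c x)‖ := h3.symm
    _ ≤ ‖e x‖ * 1 := mul_le_mul_of_nonneg_left h2 hpos.le
    _ = ‖e x‖ := mul_one _

/-- The slopes lie between zero and one. -/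
theorem IsWeil.slope_mem {b : ℕ} (hb : 0 < b) {x : L} (h : IsWeil p b x)
    (e : L →ₐ[ℚ] PadicAlgCl p) : 0 ≤ slope p b (e x) ∧ slope p b (e x) ≤ 1 := by
  obtain ⟨c, hc⟩ := exists_conj' (p := p) (L := L)
  have hmul := hc b x h
  have h1 := slope_nonneg p b hb (e x)
    (norm_le_one_of_isIntegral p _ (h.int.map (e : L →+* PadicAlgCl p).toIntAlgHom))
  have h2 := slope_nonneg p b hb (e (c x))
    (norm_le_one_of_isIntegral p _ ((h.gal c).int.map (e : L →+* PadicAlgCl p).toIntAlgHom))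
  have h3 := slope_mul p b (e x) (e (c x)) ((map_ne_zero e).2 h.ne_zero)
    ((map_ne_zero e).2 (h.gal c).ne_zero)
  rw [← map_mul, hmul, map_pow, map_natCast, slope_q p b hb] at h3
  exact ⟨h1, by linarith⟩

/-- The slopes of conjugates add up to one. -/
theorem slope_conj {b : ℕ} (hb : 0 < b) {x y : L} (h : IsWeil p b x) (hxy : x * y = (p : L) ^ b)
    (e : L →ₐ[ℚ] PadicAlgCl p) : slope p b (e y) = 1 - slope p b (e x) := by
  have hx := h.ne_zero
  have hy : y ≠ 0 := by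
    rintro rfl
    rw [mul_zero] at hxy
    exact pow_ne_zero b (Nat.cast_ne_zero.2 (Fact.out : p.Prime).ne_zero) hxy.symm
  have h3 := slope_mul p b (e x) (e y) ((map_ne_zero e).2 hx) ((map_ne_zero e).2 hy)
  rw [← map_mul, hxy, map_pow, map_natCast, slope_q p b hb] at h3
  linarith

/-- From relations between slopes to multiplicative relations. -/
theorem torsion_of_rel {b : ℕ} (hb : 0 < b) (X : Finset L) (hX : ∀ x ∈ X, IsWeil p b x)
    (e₀ : L →ₐ[ℚ] PadicAlgCl p) (m : L → ℕ) (r : ℕ) (hr : ∑ x ∈ X, m x = 2 * r)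
    (h : ∀ σ : L ≃ₐ[ℚ] L, ∑ x ∈ X, (m x : ℝ) * (2 * slope p b (e₀ (σ x)) - 1) = 0) :
    ∃ t : ℕ, 0 < t ∧ (∏ x ∈ X, x ^ m x) ^ t = (((p : L) ^ b) ^ r) ^ t := by
  have hp : p.Prime := Fact.out
  have hp0 : (p : L) ≠ 0 := Nat.cast_ne_zero.2 hp.ne_zero
  set y := ∏ x ∈ X, x ^ m x with hy
  have hy0 : y ≠ 0 := Finset.prod_ne_zero_iff.2 fun x hx => pow_ne_zero _ (hX x hx).ne_zero
  set z : L := ((p : L) ^ b) ^ r with hz
  have hz0 : z ≠ 0 := pow_ne_zero _ (pow_ne_zero _ hp0)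
  have hrR : ∑ x ∈ X, (m x : ℝ) = 2 * r := by exact_mod_cast hr
  obtain ⟨t, ht, h1⟩ := Exact.root_of_unity (y / z) (by
    intro l _ e
    rw [map_div₀, norm_div]
    by_cases hl : l = p
    · subst hl
      obtain ⟨σ, hσ⟩ := exists_gal e₀ e
      have h1 : slope l b (e y) = ∑ x ∈ X, (m x : ℝ) * slope l b (e₀ (σ x)) := by
        rw [hy, map_prod, slope_prod b X _ fun x hx => (by
          rw [map_pow]; exact pow_ne_zero _ ((map_ne_zero e).2 (hX x hx).ne_zero))]
        refine Finset.sum_congr rfl fun x hx => ?_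
        rw [map_pow, slope_pow b ((map_ne_zero e).2 (hX x hx).ne_zero), hσ]
      have h2 : slope l b (e y) = r := by
        have h3 := h σ
        have h4 : ∑ x ∈ X, (m x : ℝ) * (2 * slope l b (e₀ (σ x)) - 1) =
            2 * ∑ x ∈ X, (m x : ℝ) * slope l b (e₀ (σ x)) - ∑ x ∈ X, (m x : ℝ) := by
          rw [Finset.mul_sum, ← Finset.sum_sub_distrib]
          exact Finset.sum_congr rfl fun x _ => by ring
        rw [h4, hrR, ← h1] at h3
        linarith
      have h3 : slope l b (e z) = r := by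
        rw [hz, map_pow, slope_pow b ((map_ne_zero e).2 (pow_ne_zero _ hp0)), map_pow,
          map_natCast, slope_q l b hb, mul_one]
      have h4 : ‖e (y / z)‖ = 1 := by
        refine norm_eq_one_of_slope hb ((map_ne_zero e).2 (div_ne_zero hy0 hz0)) ?_
        have h5 := slope_mul l b (e (y / z)) (e z) ((map_ne_zero e).2 (div_ne_zero hy0 hz0))
          ((map_ne_zero e).2 hz0)
        rw [← map_mul, div_mul_cancel₀ y hz0, h2, h3] at h5
        linarith
      rw [map_div₀, norm_div] at h4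
      exact h4.le
    · have h1 : ‖e y‖ = 1 := by
        rw [hy, map_prod, norm_prod]
        refine Finset.prod_eq_one fun x hx => ?_
        have h3 : ‖e x‖ = 1 := (hX x hx).norm_other l hl (e : L →+* PadicAlgCl l)
        rw [map_pow, norm_pow, h3, one_pow]
      have h2 : ‖e z‖ = 1 := by
        rw [hz, map_pow, map_pow, map_natCast, norm_pow, norm_pow]
        have h5 : ((p : ℕ) : PadicAlgCl l) = algebraMap ℚ_[l] (PadicAlgCl l) (p : ℚ_[l]) := by
          simp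
        rw [h5, PadicAlgCl.norm_extends,
          Padic.norm_natCast_eq_one_iff.2
            ((Nat.coprime_primes (Fact.out : l.Prime) (Fact.out : p.Prime)).2 hl),
          one_pow, one_pow]
      rw [h1, h2, div_one]) (by
    intro φ
    rw [map_div₀, norm_div]
    have h1 : ‖φ y‖ ^ 2 = ‖φ z‖ ^ 2 := by
      rw [hy, hz, map_prod, norm_prod, ← Finset.prod_pow]
      have h2 : ∀ x ∈ X, ‖φ (x ^ m x)‖ ^ 2 = ((p : ℝ) ^ b) ^ m x := by
        intro x hx
        have h3 : ‖φ x‖ ^ 2 = (p : ℝ) ^ b := (hX x hx).weil (φ : L →+* ℂ)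
        rw [map_pow, norm_pow, ← pow_mul, mul_comm, pow_mul, h3]
      rw [Finset.prod_congr rfl h2, Finset.prod_pow_eq_pow_sum, hr, map_pow, map_pow,
        map_natCast, norm_pow, norm_pow, Complex.norm_natCast, mul_comm 2 r, pow_mul]
    have h2 : ‖φ y‖ = ‖φ z‖ := (pow_left_inj₀ (norm_nonneg _) (norm_nonneg _) two_ne_zero).1 h1
    rw [h2, div_self (norm_ne_zero_iff.2 ((map_ne_zero φ).2 hz0))])
  refine ⟨t, ht, ?_⟩
  rwa [div_pow, div_eq_one_iff_eq (pow_ne_zero t hz0)] at h1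

/-- From multiplicative relations to relations between slopes. -/
theorem rel_of_torsion {b : ℕ} (hb : 0 < b) (X : Finset L) (hX : ∀ x ∈ X, IsWeil p b x)
    (e₀ : L →ₐ[ℚ] PadicAlgCl p) (m : L → ℕ) (t : ℕ) (ht : 0 < t)
    (h : (∏ x ∈ X, x ^ m x) ^ (2 * t) = ((p : L) ^ b) ^ (t * ∑ x ∈ X, m x)) (σ : L ≃ₐ[ℚ] L) :
    ∑ x ∈ X, (m x : ℝ) * (2 * slope p b (e₀ (σ x)) - 1) = 0 := by
  have hp : p.Prime := Fact.out
  have hp0 : (p : L) ≠ 0 := Nat.cast_ne_zero.2 hp.ne_zero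
  have hy0 : ∏ x ∈ X, x ^ m x ≠ 0 :=
    Finset.prod_ne_zero_iff.2 fun x hx => pow_ne_zero _ (hX x hx).ne_zero
  have h1 := congrArg (fun y => slope p b (e₀ (σ y))) h
  beta_reduce at h1
  have h0 : ∀ x : L, x ≠ 0 → e₀ (σ x) ≠ 0 := fun x hx => (map_ne_zero e₀).2 ((map_ne_zero σ).2 hx)
  rw [map_pow, map_pow, slope_pow b (h0 _ hy0), map_prod, map_prod,
    slope_prod b X _ fun x hx => h0 _ (pow_ne_zero _ (hX x hx).ne_zero)] at h1
  have h2 : ∀ x ∈ X, slope p b (e₀ (σ (x ^ m x))) = m x * slope p b (e₀ (σ x)) := by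
    intro x hx
    rw [map_pow, map_pow, slope_pow b (h0 _ (hX x hx).ne_zero)]
  rw [Finset.sum_congr rfl h2, map_pow, map_pow, map_pow, map_pow, map_natCast, map_natCast,
    slope_pow b (pow_ne_zero _ (Nat.cast_ne_zero.2 hp.ne_zero)), slope_q p b hb] at h1
  push_cast at h1
  have h4 : ∑ x ∈ X, (m x : ℝ) * (2 * slope p b (e₀ (σ x)) - 1) =
      2 * ∑ x ∈ X, (m x : ℝ) * slope p b (e₀ (σ x)) - ∑ x ∈ X, (m x : ℝ) := by
    rw [Finset.mul_sum, ← Finset.sum_sub_distrib]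
    exact Finset.sum_congr rfl fun x _ => by ring
  rw [h4]
  have htR : (0 : ℝ) < t := by exact_mod_cast ht
  have h5 : (t : ℝ) * (2 * ∑ x ∈ X, (m x : ℝ) * slope p b (e₀ (σ x)) - ∑ x ∈ X, (m x : ℝ)) = 0 := by
    linarith
  exact (mul_eq_zero.1 h5).resolve_left htR.ne'

end

end Pool.Agent.L7h94.FP
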