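import Mathlib
import Pool.Agent.W518.TC.Defs
import Pool.Agent.W524.SP.Defs

/-!
# The first power of an abelian variety over a finite field with an exotic Tate class: definitions
-/

set_option autoImplicit false

namespace Pool.Agent.L7h94.FP

open Module

/-- The Frobenius endomorphism on the first cohomology group of the power `A ^ N`, if `F` is the
Frobenius endomorphism on the first cohomology group `V` of `A`. -/
def power {Ω V : Type} [Field Ω] [AddCommGroup V] [Module Ω V] (F : Module.End Ω V) (N : ℕ) :
    Module.End Ω (Fin N → V) :=
  LinearMap.pi fun i => F ∘ₗ LinearMap.proj i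

/-- There are no exotic Tate classes: all Tate classes over finite extensions of the field with
`q` elements (`Pool.Agent.W518.TC.IsTateClass`) are linear combinations of products of Tate classes
of codimension one over finite extensions (these are, by the theorem of Tate, the linear
combinations of the classes of divisors). -/
def NoExotic {Ω V : Type} [Field Ω] [AddCommGroup V] [Module Ω V] (F : Module.End Ω V) (q : ℕ) :
    Prop :=
  ∀ (m : ℕ) (x : ExteriorAlgebra Ω V), Pool.Agent.W518.TC.IsTateClass F q m x →
    x ∈ Algebra.adjoin Ω {y | Pool.Agent.W518.TC.IsTateClass F q 1 y}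

/-- Let `P` be the characteristic polynomial of the Frobenius endomorphism of an abelian variety `A`
over the field with `q` elements, and `Φ` the Frobenius endomorphism, on the first cohomology group
`W`, of an abelian variety `B` over its extension of degree `r`. Every simple factor of `B` over the
algebraic closure is isogenous to a factor of `A` or is supersingular: `W` is spanned by
eigenvectors, and for each eigenvalue `μ` some power `μ ^ t` is `α ^ (r * t)` for a root `α` of `P`,
or `μ ^ (2 * t)` is `q ^ (r * t)`. -/
def FactorsAmong {Ω W : Type} [Field Ω] [AddCommGroup W] [Module Ω W] (P : Polynomial ℤ) (q r : ℕ)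
    (Φ : Module.End Ω W) : Prop :=
  Submodule.span Ω {w : W | ∃ μ : Ω, Φ w = μ • w ∧ ∃ t : ℕ, 0 < t ∧
    ((∃ α : Ω, (P.map (Int.castRingHom Ω)).IsRoot α ∧ μ ^ t = α ^ (r * t)) ∨
      μ ^ (2 * t) = (q : Ω) ^ (r * t))} = ⊤

/-- The `p`-adic valuations of the roots of `P`, divided by the valuation of `q = p ^ a` (the slopes
of the Newton polygon of the abelian variety) have denominators dividing `D`. So `D = 1` for
ordinary abelian varieties (`Pool.Agent.W524.SP.slope p a α` is the valuation of `α`, normalised so
that `p ^ a` has valuation one). -/
def SlopeDenominator (p : ℕ) [Fact p.Prime] (a : ℕ) (P : Polynomial ℤ) (D : ℕ) : Prop :=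
  ∀ α : PadicAlgCl p, (P.map (Int.castRingHom (PadicAlgCl p))).IsRoot α →
    ∃ n : ℤ, (D : ℝ) * Pool.Agent.W524.SP.slope p a α = n

end Pool.Agent.L7h94.FP
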