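import Mathlib
import Pool.Agent.W524.SP.Ext
import Pool.Agent.W524.SP.Defs

/-!
# Exotic eigenclasses in exterior algebras
-/

set_option autoImplicit false
set_option linter.unusedSectionVars false

namespace Pool.Agent.L7h94.FP

open Module ExteriorAlgebra Polynomial Pool.Agent.H925R2 Pool.Agent.W524.SP

variable {Ω W : Type} [Field Ω] [AddCommGroup W] [Module Ω W]

/-- The exterior product of linearly independent vectors is not zero. -/
theorem ιMulti_ne_zero {M : ℕ} {w : Fin M → W} (hw : LinearIndependent Ω w) :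
    ExteriorAlgebra.ιMulti Ω M w ≠ 0 := by
  classical
  intro h0
  let f₀ : (Fin M → Ω) →ₗ[Ω] W := Fintype.linearCombination Ω w
  have hinj : Function.Injective f₀ := linearIndependent_iff_injective_fintypeLinearCombination.1 hw
  obtain ⟨ψ, hψ⟩ := LinearMap.exists_leftInverse_of_injective f₀ (LinearMap.ker_eq_bot.2 hinj)
  have hψw : ∀ i, ψ (w i) = Pi.single i 1 := by
    intro i
    have h1 := LinearMap.congr_fun hψ (Pi.single i 1)
    rw [LinearMap.comp_apply, LinearMap.id_apply] at h1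
    rw [← h1]
    congr 1
    change w i = Fintype.linearCombination Ω w (Pi.single i 1)
    rw [Fintype.linearCombination_apply_single, one_smul]
  have h1 : ExteriorAlgebra.map ψ (ExteriorAlgebra.ιMulti Ω M w) =
      ExteriorAlgebra.ιMulti Ω M (fun k => (Pi.single k 1 : Fin M → Ω)) := by
    rw [ExteriorAlgebra.map_apply_ιMulti]
    congr 1
    funext i
    exact hψw i
  rw [h0, map_zero] at h1
  let f : ∀ i, (Fin M → Ω) [⋀^Fin i]→ₗ[Ω] Ω := fun i =>
    if hi : i = M then hi ▸ (Matrix.detRowAlternating : (Fin M → Ω) [⋀^Fin M]→ₗ[Ω] Ω) else 0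
  have h2 : ExteriorAlgebra.liftAlternating f
      (ExteriorAlgebra.ιMulti Ω M (fun k => (Pi.single k 1 : Fin M → Ω))) = 1 := by
    rw [ExteriorAlgebra.liftAlternating_apply_ιMulti]
    have h3 : f M = Matrix.detRowAlternating := by
      simp only [f, dif_pos]
    rw [h3]
    change Matrix.det _ = 1
    have : (fun k => (Pi.single k 1 : Fin M → Ω)) = (1 : Matrix (Fin M) (Fin M) Ω) := by
      funext i j
      simp [Matrix.one_apply, Pi.single_apply, eq_comm]
    rw [this, Matrix.det_one]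
  rw [← h1, map_zero] at h2
  exact zero_ne_one h2

theorem pow_apply_eigen (Φ : W →ₗ[Ω] W) {w : W} {μ : Ω} (h : Φ w = μ • w) (t : ℕ) :
    (Φ ^ t) w = μ ^ t • w := by
  induction t with
  | zero => simp
  | succ s ih => rw [pow_succ', Module.End.mul_apply, ih, map_smul, h, smul_smul, pow_succ]

theorem map_ιMulti_eigen (Φ : W →ₗ[Ω] W) {M : ℕ} {w : Fin M → W} {μ : Fin M → Ω}
    (h : ∀ i, Φ (w i) = μ i • w i) :
    ExteriorAlgebra.map Φ (ExteriorAlgebra.ιMulti Ω M w) =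
      (∏ i, μ i) • ExteriorAlgebra.ιMulti Ω M w := by
  rw [ExteriorAlgebra.map_apply_ιMulti]
  have : (⇑Φ ∘ w) = fun k => μ k • w k := by
    funext k
    exact h k
  rw [this]
  exact AlternatingMap.map_smul_univ _ _ _

/-- A product of eigenvectors of nonzero weight is not a polynomial in Tate classes of degree
two. -/
theorem notMem_adjoin [CharZero Ω] (Φ : W →ₗ[Ω] W) (q : Ω) (E : Finset Ω)
    (hspan : Submodule.span Ω {w : W | ∃ μ ∈ E, Φ w = μ • w} = ⊤) (wt : Ω → ℤ)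
    (hwt : ∀ μ ∈ E, ∀ ν ∈ E, ∀ t : ℕ, 0 < t → (μ * ν) ^ t = q ^ t → wt μ + wt ν = 0)
    {M : ℕ} (w : Fin M → W) (μ : Fin M → Ω) (hμ : ∀ i, μ i ∈ E ∧ Φ (w i) = μ i • w i)
    (hw : LinearIndependent Ω w) (hsum : ∑ i, wt (μ i) ≠ 0) :
    ExteriorAlgebra.ιMulti Ω M w ∉ Algebra.adjoin Ω (tateTwo Φ q) := by
  classical
  intro hmem
  have h20 : (2 : Ω) ≠ 0 := two_ne_zero
  let r : Polynomial Ω := Lagrange.interpolate E id (fun μ => (2 : Ω) ^ wt μ)
  have hr : ∀ μ ∈ E, r.eval μ = (2 : Ω) ^ wt μ := fun μ hμ =>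
    Lagrange.eval_interpolate_at_node (v := id) _ (Function.injective_id.injOn) hμ
  let τ : W →ₗ[Ω] W := aeval (Φ : Module.End Ω W) r
  have hτ : ∀ (u : W) (μ : Ω), μ ∈ E → Φ u = μ • u → τ u = ((2 : Ω) ^ wt μ) • u := by
    intro u μ hμ hu
    rw [← hr μ hμ]
    exact Module.End.aeval_apply_of_mem_apply_eq_smul (p := r) hu
  -- the classes of degree two are fixed
  have hfix : ∀ y ∈ tateTwo Φ q, ExteriorAlgebra.map τ y = y := by
    rintro y ⟨hy2, t, ht, hyt⟩
    set E' : Set W := {w : W | ∃ μ ∈ E, Φ w = μ • w} with hE'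
    have hsp := exteriorPower.ιMulti_span_fixedDegree_of_span_eq_top Ω 2 W hspan
    set T : Set (ExteriorAlgebra Ω W) :=
      {y | ∃ a : Fin 2 → W, (∀ j, a j ∈ E') ∧ ExteriorAlgebra.ιMulti Ω 2 a = y} with hT
    have hTspan : y ∈ Submodule.span Ω T := by
      rw [← hsp] at hy2
      refine Submodule.span_mono ?_ hy2
      rintro _ ⟨a, ha, rfl⟩
      exact ⟨a, fun j => ha ⟨j, rfl⟩, rfl⟩
    have hTeig : ∀ a : Fin 2 → W, (∀ j, a j ∈ E') → ∃ μ : Fin 2 → Ω,
        (∀ j, μ j ∈ E ∧ Φ (a j) = μ j • a j) := by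
      intro a ha
      choose μ hμ1 hμ2 using ha
      exact ⟨μ, fun j => ⟨hμ1 j, hμ2 j⟩⟩
    have hmem := mem_span_eigen (ExteriorAlgebra.map (Φ ^ t)).toLinearMap T (by
      rintro z ⟨a, ha, rfl⟩
      obtain ⟨μ, hμ⟩ := hTeig a ha
      exact ⟨_, map_ιMulti_eigen (Φ ^ t) fun i => pow_apply_eigen Φ (hμ i).2 t⟩)
      (q ^ t) y hTspan hyt
    have hle : Submodule.span Ω
        {z ∈ T | (ExteriorAlgebra.map (Φ ^ t)).toLinearMap z = q ^ t • z} ≤
        LinearMap.eqLocus (ExteriorAlgebra.map τ).toLinearMap LinearMap.id := by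
      rw [Submodule.span_le]
      rintro z ⟨⟨a, ha, rfl⟩, hz⟩
      obtain ⟨μ, hμ⟩ := hTeig a ha
      change ExteriorAlgebra.map τ (ExteriorAlgebra.ιMulti Ω 2 a) = ExteriorAlgebra.ιMulti Ω 2 a
      by_cases h0 : ExteriorAlgebra.ιMulti Ω 2 a = 0
      · rw [h0, map_zero]
      have h1 : (μ 0 * μ 1) ^ t = q ^ t := by
        have h2 := map_ιMulti_eigen (Φ ^ t) fun i => pow_apply_eigen Φ (hμ i).2 t
        rw [Fin.prod_univ_two, ← mul_pow] at h2
        have h3 : (μ 0 * μ 1) ^ t • ExteriorAlgebra.ιMulti Ω 2 a =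
            q ^ t • ExteriorAlgebra.ιMulti Ω 2 a := by
          rw [← h2]
          exact hz
        exact smul_left_injective Ω h0 h3
      rw [map_ιMulti_eigen τ fun i => hτ _ _ (hμ i).1 (hμ i).2, Fin.prod_univ_two,
        ← zpow_add₀ h20, hwt _ (hμ 0).1 _ (hμ 1).1 t ht h1, zpow_zero, one_smul]
    exact hle hmem
  have hfix' : ∀ y ∈ Algebra.adjoin Ω (tateTwo Φ q), ExteriorAlgebra.map τ y = y := by
    intro y hy
    have h1 : Algebra.adjoin Ω (tateTwo Φ q) ≤
        AlgHom.equalizer (ExteriorAlgebra.map τ) (AlgHom.id Ω _) :=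
      Algebra.adjoin_le fun z hz => hfix z hz
    exact h1 hy
  have h1 := hfix' _ hmem
  rw [map_ιMulti_eigen τ fun i => hτ _ _ (hμ i).1 (hμ i).2] at h1
  have h2 : (∏ i, (2 : Ω) ^ wt (μ i)) = (2 : Ω) ^ (∑ i, wt (μ i)) := by
    induction (Finset.univ : Finset (Fin M)) using Finset.induction_on with
    | empty => simp
    | insert i s hi ih => rw [Finset.prod_insert hi, Finset.sum_insert hi, zpow_add₀ h20, ih]
  rw [h2] at h1
  have h3 : (2 : Ω) ^ (∑ i, wt (μ i)) = 1 := by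
    refine smul_left_injective Ω (ιMulti_ne_zero hw) ?_
    change (2 : Ω) ^ (∑ i, wt (μ i)) • ExteriorAlgebra.ιMulti Ω M w =
      (1 : Ω) • ExteriorAlgebra.ιMulti Ω M w
    rw [h1, one_smul]
  apply hsum
  have h4 : ((2 : ℚ) ^ (∑ i, wt (μ i)) : ℚ) = 1 := by
    have h5 : ((((2 : ℚ) ^ (∑ i, wt (μ i)) : ℚ)) : Ω) = ((1 : ℚ) : Ω) := by
      rw [Rat.cast_zpow, Rat.cast_one, Rat.cast_ofNat]
      exact h3
    exact Rat.cast_injective h5
  have h6 := zpow_right_injective₀ (a := (2 : ℚ)) (by norm_num) (by norm_num)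
  refine h6 ?_
  beta_reduce
  rw [h4, zpow_zero]

end Pool.Agent.L7h94.FP
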