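import Mathlib
import Pool.Agent.L7h94.FP.Arith

/-!
# Small relations between Weil numbers
-/

set_option autoImplicit false
set_option linter.unusedSectionVars false

namespace Pool.Agent.L7h94.FP

open NumberField Module Pool.Agent.H485R3 Pool.Agent.W524.SP Pool.Agent.L7h94.FE

noncomputable section

variable {p : ℕ} [Fact p.Prime] {L : Type} [Field L] [NumberField L] [IsGalois ℚ L]

/-- A finite set of Weil numbers of weight `b`, stable under the Galois group, none of which is a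
square root of `p ^ b`. -/
structure IsSystem (p b : ℕ) (X : Finset L) : Prop where
  weil : ∀ x ∈ X, IsWeil p b x
  stable : ∀ x ∈ X, ∀ σ : L ≃ₐ[ℚ] L, σ x ∈ X
  notSq : ∀ x ∈ X, x ^ 2 ≠ (p : L) ^ b

/-- The Galois action on the system. -/
@[instance_reducible]
def sysAction {b : ℕ} {X : Finset L} (hX : IsSystem p b X) : MulAction (L ≃ₐ[ℚ] L) X where
  smul σ x := ⟨σ x, hX.stable x x.2 σ⟩
  one_smul _ := rfl
  mul_smul _ _ _ := rfl

theorem exists_small {b : ℕ} (hb : 0 < b) {X : Finset L} (hX : IsSystem p b X)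
    (e₀ : L →ₐ[ℚ] PadicAlgCl p) {D : ℕ} (hD : 1 ≤ D)
    (hint : ∀ x ∈ X, ∃ n : ℤ, (D : ℝ) * slope p b (e₀ x) = n) {g k : ℕ} (hg : X.card ≤ 2 * g)
    (O : Finset L) (hOk : O.card ≤ k) (hO : ∀ x ∈ X, ∃ y ∈ O, ∃ σ : L ≃ₐ[ℚ] L, σ y = x)
    (m : L → ℕ)
    (hm : ∀ σ : L ≃ₐ[ℚ] L, ∑ x ∈ X, (m x : ℝ) * (2 * slope p b (e₀ (σ x)) - 1) = 0)
    (hne : ∃ x ∈ X, ∃ y ∈ X, x * y = (p : L) ^ b ∧ m x ≠ m y) :
    ∃ n : L → ℤ, (∀ x ∈ X, ∀ y ∈ X, x * y = (p : L) ^ b → n y = -n x) ∧ (∃ x ∈ X, n x ≠ 0) ∧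
      (∀ σ : L ≃ₐ[ℚ] L, ∑ x ∈ X, (n x : ℝ) * (2 * slope p b (e₀ (σ x)) - 1) = 0) ∧
      ∀ x ∈ X, (|n x| : ℝ) ≤ Real.exp (14 * √(k * g) * Real.log (2 * g) *
        Real.log (2 * g * D)) := by
  classical
  let _ := sysAction hX
  have hsmul : ∀ (σ : L ≃ₐ[ℚ] L) (x : X), ((σ • x : X) : L) = σ x := fun _ _ => rfl
  obtain ⟨c, hc⟩ := exists_conj' (p := p) (L := L)
  have hcx : ∀ x : X, (x : L) * c x = (p : L) ^ b := fun x => hc b x (hX.weil x x.2)
  have hx0 : ∀ x : X, (x : L) ≠ 0 := fun x => (hX.weil x x.2).ne_zero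
  have hcuniq : ∀ (x : X) (y : L), (x : L) * y = (p : L) ^ b → y = c x := by
    intro x y h
    exact mul_left_cancel₀ (hx0 x) (h.trans (hcx x).symm)
  have hfree : ∀ x : X, c • x ≠ x := by
    intro x h
    apply hX.notSq x x.2
    have h1 : c (x : L) = x := congrArg Subtype.val h
    have h2 := hcx x
    rw [h1] at h2
    rw [sq, h2]
  have hcen : ∀ (γ : L ≃ₐ[ℚ] L) (x : X), c • γ • x = γ • c • x := by
    intro γ x
    apply Subtype.ext
    rw [hsmul, hsmul, hsmul, hsmul]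
    have h1 : (γ (x : L)) * γ (c x) = (p : L) ^ b := by
      rw [← map_mul, hcx, map_pow, map_natCast]
    exact (hcuniq (γ • x) _ h1).symm
  -- the integral function
  choose vv hvv using hint
  let sl : X → ℝ := fun x => slope p b (e₀ x)
  let v : X → ℤ := fun x => 2 * vv x x.2 - D
  have hv : ∀ x : X, (v x : ℝ) = D * (2 * sl x - 1) := by
    intro x
    have h1 := hvv x x.2
    change (D : ℝ) * sl x = _ at h1
    simp only [v]
    push_cast
    rw [← h1]
    ring
  have hDR : (1 : ℝ) ≤ D := by exact_mod_cast hD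
  have hv1 : ∀ x : X, |v x| ≤ D := by
    intro x
    obtain ⟨h1, h2⟩ := (hX.weil x x.2).slope_mem hb e₀
    change 0 ≤ sl x at h1
    change sl x ≤ 1 at h2
    have h3 : (|v x| : ℝ) ≤ D := by
      rw [hv x, abs_le]
      constructor
      · nlinarith
      · nlinarith
    exact_mod_cast h3
  have hslc : ∀ (σ : L ≃ₐ[ℚ] L) (x : X), slope p b (e₀ (σ (c • x : X))) =
      1 - slope p b (e₀ (σ x)) := by
    intro σ x
    refine slope_conj hb ((hX.weil x x.2).gal σ) ?_ e₀
    rw [hsmul, ← map_mul, hcx, map_pow, map_natCast]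
  -- the relation
  let n₀ : X → ℤ := fun x => (m x : ℤ) - m (c • x : X)
  have hcc : ∀ x : X, c • c • x = x := by
    intro x
    apply Subtype.ext
    rw [hsmul]
    refine (hcuniq (c • x) _ ?_).symm
    rw [hsmul, mul_comm]
    exact hcx x
  have hsumc : ∀ F : X → ℝ, ∑ x, F (c • x) = ∑ x, F x := fun F =>
    Fintype.sum_equiv (MulAction.toPerm c) _ _ fun x => rfl
  have key : ∀ (w : X → ℝ) (σ : L ≃ₐ[ℚ] L),
      ∑ x, (w x - w (c • x)) * (v (σ • x) : ℝ) =
        2 * D * ∑ x, w x * (2 * slope p b (e₀ (σ x)) - 1) := by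
    intro w σ
    have h1 : ∀ x : X, (v (σ • x) : ℝ) = D * (2 * slope p b (e₀ (σ x)) - 1) := fun x => hv (σ • x)
    have h2 : ∑ x, w (c • x) * (v (σ • x) : ℝ) =
        - ∑ x, w x * (v (σ • x) : ℝ) := by
      rw [← hsumc (fun x => w x * (v (σ • x) : ℝ)), ← Finset.sum_neg_distrib]
      refine Finset.sum_congr rfl fun x _ => ?_
      rw [h1, h1, hslc]
      ring
    simp only [sub_mul, Finset.sum_sub_distrib]
    rw [h2, sub_neg_eq_add, ← two_mul, mul_assoc, Finset.mul_sum, Finset.mul_sum, Finset.mul_sum]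
    refine Finset.sum_congr rfl fun x _ => ?_
    rw [h1]
    ring
  have hn₀ : IsRelOf (L ≃ₐ[ℚ] L) c v n₀ := by
    refine ⟨?_, ?_, ?_⟩
    · obtain ⟨x, hx, y, hy, hxy, hmn⟩ := hne
      intro h0
      apply hmn
      have h1 : y = c x := hcuniq ⟨x, hx⟩ y hxy
      have h2 := congrFun h0 ⟨x, hx⟩
      simp only [n₀, Pi.zero_apply] at h2
      rw [hsmul] at h2
      change (m x : ℤ) - m (c x) = 0 at h2
      rw [← h1] at h2
      omega
    · intro x
      simp only [n₀]
      rw [hcc]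
      ring
    · intro σ
      have h1 := key (fun x => (m x : ℝ)) σ
      have h2 := hm σ
      rw [← Finset.sum_coe_sort X (fun x => (m x : ℝ) * (2 * slope p b (e₀ (σ x)) - 1))] at h2
      rw [h2, mul_zero] at h1
      have h3 : ((∑ x, n₀ x * v (σ • x) : ℤ) : ℝ) = 0 := by
        push_cast
        rw [← h1]
        refine Finset.sum_congr rfl fun x _ => ?_
        simp only [n₀]
        push_cast
        ring
      exact_mod_cast h3
  -- the representatives
  let O' : Finset X := (X.attach).filter fun x => (x : L) ∈ O ∨ (x : L) ∈ O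
  have hO'mem : ∀ x : X, x ∈ O' ↔ (x : L) ∈ O := by
    intro x
    simp [O']
  have hO' : ∀ x : X, ∃ x₀ ∈ O', ∃ δ : L ≃ₐ[ℚ] L, δ • x₀ = x := by
    intro x
    obtain ⟨y, hy, σ, hσ⟩ := hO x x.2
    have hyX : y ∈ X := by
      have h1 := hX.stable x x.2 σ⁻¹
      have h2 : σ⁻¹ (x : L) = y := by
        rw [← hσ]
        exact σ.symm_apply_apply y
      rwa [h2] at h1
    refine ⟨⟨y, hyX⟩, (hO'mem _).2 hy, σ, Subtype.ext hσ⟩
  have hO'card : O'.card ≤ k := by
    refine le_trans ?_ hOk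
    refine Finset.card_le_card_of_injOn (fun x : X => (x : L)) (fun x hx => ?_)
      (fun x _ y _ h => Subtype.ext h)
    exact (hO'mem x).1 hx
  -- the number of elements
  have heven : Even (Fintype.card X) := by
    have h1 : ((Fintype.card X : ℕ) : ZMod 2) = 0 := by
      have h2 : ((Fintype.card X : ℕ) : ZMod 2) = ∑ x : X, (1 : ZMod 2) := by
        rw [Finset.sum_const, Finset.card_univ, nsmul_eq_mul, mul_one]
      rw [h2]
      refine Finset.sum_involution (fun x _ => c • x) (fun x _ => ?_) (fun x _ _ => hfree x)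
        (fun x _ => Finset.mem_univ _) (fun x _ => hcc x)
      decide
    exact (ZMod.natCast_eq_zero_iff_even).1 h1
  obtain ⟨g', hg'⟩ := heven
  have hg'2 : Fintype.card X = 2 * g' := by omega
  obtain ⟨n', hn', hb'⟩ := small_group hfree hcen hD hv1 O' hO' hg'2 hn₀
  have hgg : g' ≤ g := by
    rw [Fintype.card_coe] at hg'2
    omega
  have hg'1 : 1 ≤ g' := by
    by_contra hcon
    obtain ⟨x, hx, _⟩ := hne
    have h1 : Fintype.card X = 0 := by omega
    rw [Fintype.card_eq_zero_iff] at h1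
    exact h1.elim ⟨x, hx⟩
  let nn : L → ℤ := fun x => if hx : x ∈ X then n' ⟨x, hx⟩ else 0
  have hnn : ∀ x : X, nn x = n' x := fun x => dif_pos x.2
  have hnn' : ∀ (x : L) (hx : x ∈ X), nn x = n' ⟨x, hx⟩ := fun x hx => dif_pos hx
  refine ⟨nn, ?_, ?_, ?_, ?_⟩
  · intro x hx y hy hxy
    rw [hnn' x hx, hnn' y hy, ← hn'.odd]
    congr 1
    exact Subtype.ext (hcuniq ⟨x, hx⟩ y hxy)
  · by_contra hcon
    push Not at hcon
    apply hn'.ne_zero
    funext x
    have h1 := hcon x x.2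
    rwa [hnn x] at h1
  · intro σ
    rw [← Finset.sum_coe_sort X]
    have h1 := hn'.rel σ
    have h2 : (D : ℝ) * ∑ x : X, (nn (x : L) : ℝ) * (2 * slope p b (e₀ (σ x)) - 1) = 0 := by
      have h3 : ((∑ x, n' x * v (σ • x) : ℤ) : ℝ) = 0 := by
        rw [h1, Int.cast_zero]
      rw [← h3, Finset.mul_sum]
      push_cast
      refine Finset.sum_congr rfl fun x _ => ?_
      rw [hnn x, hv (σ • x)]
      simp only [sl]
      rw [hsmul]
      ring
    exact (mul_eq_zero.1 h2).resolve_left (by linarith)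
  · intro x hx
    rw [hnn' x hx]
    refine (hb' ⟨x, hx⟩).trans (Real.exp_le_exp.2 ?_)
    have e1 : (g' : ℝ) ≤ g := by exact_mod_cast hgg
    have e2 : (1 : ℝ) ≤ g' := by exact_mod_cast hg'1
    have e3 : (O'.card : ℝ) ≤ k := by exact_mod_cast hO'card
    have e4 : √((O'.card : ℝ) * g') ≤ √((k : ℝ) * g) :=
      Real.sqrt_le_sqrt (mul_le_mul e3 e1 (by linarith) (Nat.cast_nonneg k))
    have e5 : Real.log (2 * g') ≤ Real.log (2 * g) := Real.log_le_log (by linarith) (by linarith)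
    have e6 : Real.log (2 * g' * D) ≤ Real.log (2 * g * D) :=
      Real.log_le_log (by positivity) (by nlinarith)
    have e7 : 0 ≤ Real.log (2 * g') := Real.log_nonneg (by linarith)
    have e8 : 0 ≤ Real.log (2 * g' * D) := Real.log_nonneg (by nlinarith)
    have e9 : 0 ≤ √((k : ℝ) * g) := Real.sqrt_nonneg _
    have e10 : 0 ≤ √((O'.card : ℝ) * g') := Real.sqrt_nonneg _
    refine mul_le_mul (mul_le_mul (by linarith) e5 e7 (by positivity)) e6 e8 ?_
    exact mul_nonneg (by positivity) (e7.trans e5)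

end

end Pool.Agent.L7h94.FP
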