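import Mathlib
import Pool.Agent.L7h94.FP.Small
import Pool.Agent.L7h94.FP.Ext
import Pool.Agent.L7h94.FP.Defs

/-!
# From small relations to exotic classes on powers
-/

set_option autoImplicit false
set_option linter.unusedSectionVars false

namespace Pool.Agent.L7h94.FP

open NumberField Module Pool.Agent.H485R3 Pool.Agent.W524.SP Pool.Agent.W518.TC

noncomputable section

theorem adjoin_eq {Ω W : Type} [Field Ω] [AddCommGroup W] [Module Ω W] (Φ : Module.End Ω W)
    (q : ℕ) : {y | IsTateClass Φ q 1 y} = tateTwo Φ (q : Ω) := by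
  ext y
  unfold IsTateClass tateTwo
  simp only [mul_one, pow_one, Set.mem_ofPred_eq]

variable {p : ℕ} [Fact p.Prime] {L : Type} [Field L] [NumberField L] [IsGalois ℚ L]

open Classical in
/-- The powers of the elements of `R`, without the self-dual ones. -/
def classes (p a T : ℕ) (R : Finset L) : Finset L :=
  (R.image fun α => α ^ T).filter fun β => β ^ 2 ≠ (p : L) ^ (a * T)

theorem mem_classes {a T : ℕ} {R : Finset L} {β : L} :
    β ∈ classes p a T R ↔ (∃ α ∈ R, α ^ T = β) ∧ β ^ 2 ≠ (p : L) ^ (a * T) := by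
  simp only [classes, Finset.mem_filter, Finset.mem_image]

theorem isSystem_classes {a T : ℕ} {R : Finset L} (hR : ∀ α ∈ R, IsWeil p a α)
    (hst : ∀ α ∈ R, ∀ σ : L ≃ₐ[ℚ] L, σ α ∈ R) : IsSystem p (a * T) (classes p a T R) := by
  refine ⟨fun x hx => ?_, fun x hx σ => ?_, fun x hx => (mem_classes.1 hx).2⟩
  · obtain ⟨⟨α, hα, rfl⟩, _⟩ := mem_classes.1 hx
    exact (hR α hα).pow T
  · obtain ⟨⟨α, hα, rfl⟩, h2⟩ := mem_classes.1 hx
    refine mem_classes.2 ⟨⟨σ α, hst α hα σ, (map_pow σ α T).symm⟩, fun h => h2 ?_⟩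
    apply σ.injective
    rw [map_pow, h, map_pow, map_natCast]

theorem rel_positive {b : ℕ} (hb : 0 < b) {X : Finset L} (hX : IsSystem p b X)
    (e₀ : L →ₐ[ℚ] PadicAlgCl p) (n : L → ℤ)
    (hodd : ∀ x ∈ X, ∀ y ∈ X, x * y = (p : L) ^ b → n y = -n x)
    (hrel : ∀ σ : L ≃ₐ[ℚ] L, ∑ x ∈ X, (n x : ℝ) * (2 * slope p b (e₀ (σ x)) - 1) = 0)
    (σ : L ≃ₐ[ℚ] L) :
    ∑ x ∈ X, ((2 * (n x).toNat : ℕ) : ℝ) * (2 * slope p b (e₀ (σ x)) - 1) = 0 := by
  obtain ⟨c, hc⟩ := exists_conj' (p := p) (L := L)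
  have hcX : ∀ x ∈ X, c x ∈ X := fun x hx => hX.stable x hx c
  have hcc : ∀ x ∈ X, c (c x) = x := by
    intro x hx
    have h1 := hc b x (hX.weil x hx)
    have h2 := hc b (c x) (hX.weil _ (hcX x hx))
    rw [mul_comm] at h1
    exact mul_left_cancel₀ (hX.weil _ (hcX x hx)).ne_zero (h2.trans h1.symm)
  have hf : ∀ x ∈ X, 2 * slope p b (e₀ (σ (c x))) - 1 = -(2 * slope p b (e₀ (σ x)) - 1) := by
    intro x hx
    have h1 : slope p b (e₀ (σ (c x))) = 1 - slope p b (e₀ (σ x)) := by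
      refine slope_conj hb ((hX.weil x hx).gal σ) ?_ e₀
      rw [← map_mul, hc b x (hX.weil x hx), map_pow, map_natCast]
    rw [h1]
    ring
  have hnc : ∀ x ∈ X, n (c x) = -n x := fun x hx =>
    hodd x hx (c x) (hcX x hx) (hc b x (hX.weil x hx))
  have h1 : ∑ x ∈ X, (((-n x).toNat : ℕ) : ℝ) * (2 * slope p b (e₀ (σ x)) - 1) =
      - ∑ x ∈ X, (((n x).toNat : ℕ) : ℝ) * (2 * slope p b (e₀ (σ x)) - 1) := by
    rw [← Finset.sum_neg_distrib]
    refine Finset.sum_nbij' c c hcX hcX hcc hcc ?_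
    intro x hx
    rw [hnc x hx, hf x hx]
    ring
  have h2 : ∑ x ∈ X, (n x : ℝ) * (2 * slope p b (e₀ (σ x)) - 1) =
      ∑ x ∈ X, (((n x).toNat : ℕ) : ℝ) * (2 * slope p b (e₀ (σ x)) - 1) -
      ∑ x ∈ X, (((-n x).toNat : ℕ) : ℝ) * (2 * slope p b (e₀ (σ x)) - 1) := by
    rw [← Finset.sum_sub_distrib]
    refine Finset.sum_congr rfl fun x _ => ?_
    rw [← sub_mul]
    congr 1
    have h3 : (n x : ℤ) = ((n x).toNat : ℤ) - ((-n x).toNat : ℤ) :=
      (Int.toNat_sub_toNat_neg (n x)).symm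
    exact_mod_cast congrArg (fun z : ℤ => (z : ℝ)) h3
  have h3 := hrel σ
  rw [h2, h1] at h3
  have h4 : ∑ x ∈ X, ((2 * (n x).toNat : ℕ) : ℝ) * (2 * slope p b (e₀ (σ x)) - 1) =
      2 * ∑ x ∈ X, (((n x).toNat : ℕ) : ℝ) * (2 * slope p b (e₀ (σ x)) - 1) := by
    rw [Finset.mul_sum]
    refine Finset.sum_congr rfl fun x _ => ?_
    push_cast
    ring
  rw [h4]
  linarith

variable {Ω V : Type} [Field Ω] [CharZero Ω] [AddCommGroup V] [Module Ω V]

theorem exotic {a T : ℕ} (ha : 0 < a) (hT0 : 0 < T)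
    (hT : ∀ x : L, (∃ n : ℕ, 0 < n ∧ x ^ n = 1) → x ^ T = 1)
    {R : Finset L} (hR : ∀ α ∈ R, IsWeil p a α) (hst : ∀ α ∈ R, ∀ σ : L ≃ₐ[ℚ] L, σ α ∈ R)
    (e₀ : L →ₐ[ℚ] PadicAlgCl p) (j : L →+* Ω) (F : Module.End Ω V)
    (hspan : Submodule.span Ω {v : V | ∃ α ∈ R, F v = j α • v} = ⊤)
    (hev : ∀ α ∈ R, ∃ v : V, v ≠ 0 ∧ F v = j α • v) (n : L → ℤ)
    (hodd : ∀ x ∈ classes p a T R, ∀ y ∈ classes p a T R, x * y = (p : L) ^ (a * T) → n y = -n x)
    (hne : ∃ x ∈ classes p a T R, n x ≠ 0)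
    (hrel : ∀ σ : L ≃ₐ[ℚ] L,
      ∑ x ∈ classes p a T R, (n x : ℝ) * (2 * slope p (a * T) (e₀ (σ x)) - 1) = 0)
    {N : ℕ} (hN : ∀ x ∈ classes p a T R, 2 * |n x| ≤ N) : ¬ NoExotic (power F N) (p ^ a) := by
  classical
  intro hno
  set X := classes p a T R with hXdef
  have hX : IsSystem p (a * T) X := isSystem_classes hR hst
  have hb : 0 < a * T := Nat.mul_pos ha hT0
  have hp : p.Prime := Fact.out
  -- choices
  have hch : ∀ β : X, ∃ α ∈ R, α ^ T = (β : L) := fun β => (mem_classes.1 β.2).1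
  choose A hAR hAT using hch
  choose! u hu0 hu using hev
  set kk : X → ℕ := fun β => 2 * (n β).toNat with hkk
  have hkN : ∀ β : X, kk β ≤ N := by
    intro β
    have h1 := hN β β.2
    have h2 : ((n β).toNat : ℤ) ≤ |n β| := by
      rcases le_total 0 (n β) with h | h
      · rw [Int.toNat_of_nonneg h]
        exact le_abs_self _
      · rw [Int.toNat_of_nonpos h]
        simp
    simp only [hkk]
    have h3 : 2 * ((n β).toNat : ℤ) ≤ N := by linarith
    exact_mod_cast h3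
  let fam : (Σ β : X, Fin (kk β)) → (Fin N → V) := fun i =>
    Pi.single ⟨i.2, lt_of_lt_of_le i.2.2 (hkN i.1)⟩ (u (A i.1))
  -- linear independence
  have hli0 : LinearIndependent Ω (fun β : X => u (A β)) := by
    refine Module.End.eigenvectors_linearIndependent' F (fun β : X => j (A β)) ?_ _ ?_
    · intro β β' h
      have h1 := j.injective h
      apply Subtype.ext
      rw [← hAT β, ← hAT β', h1]
    · intro β
      exact ⟨Module.End.mem_eigenspace_iff.2 (hu _ (hAR β)), hu0 _ (hAR β)⟩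
  have hli1 : LinearIndependent Ω (fun ji : Σ _ : Fin N, X =>
      (Pi.single ji.1 (u (A ji.2)) : Fin N → V)) :=
    Pi.linearIndependent_single (fun (_ : Fin N) (β : X) => u (A β)) (fun _ => hli0)
  have hli : LinearIndependent Ω fam := by
    refine hli1.comp (fun i : Σ β : X, Fin (kk β) =>
      (⟨⟨i.2, lt_of_lt_of_le i.2.2 (hkN i.1)⟩, i.1⟩ : Σ _ : Fin N, X)) ?_
    rintro ⟨β, i⟩ ⟨β', i'⟩ h
    simp only [Sigma.mk.injEq, Fin.mk.injEq, heq_eq_eq] at h
    obtain ⟨h1, h2⟩ := h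
    subst h2
    have h3 : i = i' := Fin.ext h1
    rw [h3]
  -- the number of factors
  set r := ∑ x ∈ X, (n x).toNat with hr
  have hcard : Fintype.card (Σ β : X, Fin (kk β)) = 2 * r := by
    rw [Fintype.card_sigma]
    simp only [Fintype.card_fin, hkk]
    rw [← Finset.mul_sum, hr, Finset.sum_coe_sort X (fun x => (n x).toNat)]
  let e : (Σ β : X, Fin (kk β)) ≃ Fin (2 * r) := Fintype.equivFinOfCardEq hcard
  let w : Fin (2 * r) → (Fin N → V) := fun l => fam (e.symm l)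
  let μ : Fin (2 * r) → Ω := fun l => j (A (e.symm l).1)
  have hw : LinearIndependent Ω w := hli.comp _ e.symm.injective
  have hsingle : ∀ (i : Fin N) (v : V) (c : Ω), F v = c • v →
      power F N (Pi.single i v) = c • (Pi.single i v : Fin N → V) := by
    intro i v c hv
    funext k
    change F ((Pi.single i v : Fin N → V) k) = c • (Pi.single i v : Fin N → V) k
    by_cases hk : k = i
    · subst hk
      rw [Pi.single_eq_same, hv]
    · rw [Pi.single_eq_of_ne hk, map_zero, smul_zero]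
  have hweig : ∀ l, power F N (w l) = μ l • w l := fun l => hsingle _ _ _ (hu _ (hAR _))
  -- it is a Tate class
  obtain ⟨t, ht, hrt⟩ := torsion_of_rel hb X hX.weil e₀ (fun x => 2 * (n x).toNat) r
    (by rw [← Finset.mul_sum]) (rel_positive hb hX e₀ n hodd hrel)
  have hprod : (∏ l, μ l) ^ (T * t) = (((p ^ a : ℕ) : Ω) ^ r) ^ (T * t) := by
    have h1 : ∏ l, μ l = j (∏ β : X, (A β) ^ kk β) := by
      rw [map_prod]
      have h2 : ∏ l, μ l = ∏ i : (Σ β : X, Fin (kk β)), j (A i.1) :=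
        Fintype.prod_equiv e.symm _ _ fun l => rfl
      rw [h2, Fintype.prod_sigma]
      refine Finset.prod_congr rfl fun β _ => ?_
      change ∏ _y : Fin (kk β), j (A β) = _
      rw [Finset.prod_const, Finset.card_univ, Fintype.card_fin, map_pow]
    have h2 : (∏ β : X, (A β) ^ kk β) ^ T = ∏ x ∈ X, x ^ (2 * (n x).toNat) := by
      rw [← Finset.prod_pow, ← Finset.prod_coe_sort X (fun x => x ^ (2 * (n x).toNat))]
      refine Finset.prod_congr rfl fun β _ => ?_
      rw [← pow_mul, mul_comm, pow_mul, hAT]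
    rw [h1, ← map_pow, pow_mul, h2, hrt]
    simp only [map_pow, map_natCast]
    push_cast
    ring
  have hTate : IsTateClass (power F N) (p ^ a) r (ExteriorAlgebra.ιMulti Ω (2 * r) w) := by
    refine ⟨ExteriorAlgebra.ιMulti_range Ω (2 * r) ⟨w, rfl⟩, T * t, Nat.mul_pos hT0 ht, ?_⟩
    rw [map_ιMulti_eigen (power F N ^ (T * t)) fun l => pow_apply_eigen _ (hweig l) (T * t),
      Finset.prod_pow, hprod]
  have hmem := hno r _ hTate
  rw [adjoin_eq] at hmem
  -- the weights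
  have hinj : Function.Injective j := j.injective
  let wt : Ω → ℤ := fun ν => if h : ∃ α ∈ R, j α = ν ∧ α ^ T ∈ X then
    Int.sign (n (h.choose ^ T)) else 0
  have hwt1 : ∀ α ∈ R, α ^ T ∈ X → wt (j α) = Int.sign (n (α ^ T)) := by
    intro α hα hαX
    have h : ∃ α' ∈ R, j α' = j α ∧ α' ^ T ∈ X := ⟨α, hα, rfl, hαX⟩
    simp only [wt]
    rw [dif_pos h, hinj h.choose_spec.2.1]
  have hwt0 : ∀ α ∈ R, α ^ T ∉ X → wt (j α) = 0 := by
    intro α hα hαX
    simp only [wt]
    rw [dif_neg]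
    rintro ⟨α', _, h1, h2⟩
    rw [hinj h1] at h2
    exact hαX h2
  refine notMem_adjoin (power F N) ((p ^ a : ℕ) : Ω) (R.image j) ?_ wt ?_ w μ ?_ hw ?_ hmem
  · -- the span
    rw [eq_top_iff]
    rintro v -
    have h1 : v = ∑ i, (Pi.single i (v i) : Fin N → V) := (Finset.univ_sum_single v).symm
    rw [h1]
    refine Submodule.sum_mem _ fun i _ => ?_
    have h2 : v i ∈ Submodule.span Ω {v : V | ∃ α ∈ R, F v = j α • v} := by
      rw [hspan]
      trivial
    have h3 : Submodule.map (LinearMap.single Ω (fun _ : Fin N => V) i)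
        (Submodule.span Ω {v : V | ∃ α ∈ R, F v = j α • v}) ≤
        Submodule.span Ω {w : Fin N → V | ∃ μ ∈ R.image j, power F N w = μ • w} := by
      rw [Submodule.map_span, Submodule.span_le]
      rintro _ ⟨v', ⟨α, hα, hv'⟩, rfl⟩
      exact Submodule.subset_span ⟨j α, Finset.mem_image_of_mem _ hα, hsingle i v' _ hv'⟩
    exact h3 ⟨v i, h2, rfl⟩
  · -- the weights
    intro μ₁ hμ₁ μ₂ hμ₂ s hs hmul
    obtain ⟨α, hα, rfl⟩ := Finset.mem_image.1 hμ₁
    obtain ⟨α', hα', rfl⟩ := Finset.mem_image.1 hμ₂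
    have hp0 : (p : L) ^ a ≠ 0 := pow_ne_zero _ (Nat.cast_ne_zero.2 hp.ne_zero)
    have h1 : (α * α') ^ s = ((p : L) ^ a) ^ s := by
      apply hinj
      rw [map_pow, map_mul, hmul, map_pow, map_pow, map_natCast]
      push_cast
      rfl
    have h2 : (α * α' / (p : L) ^ a) ^ T = 1 := by
      refine hT _ ⟨s, hs, ?_⟩
      rw [div_pow, h1, div_self (pow_ne_zero _ hp0)]
    have h3 : α ^ T * α' ^ T = (p : L) ^ (a * T) := by
      rw [div_pow, div_eq_one_iff_eq (pow_ne_zero _ hp0), mul_pow, ← pow_mul] at h2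
      exact h2
    have h4 : ∀ x y : L, x * y = (p : L) ^ (a * T) → x ^ 2 = (p : L) ^ (a * T) →
        y ^ 2 = (p : L) ^ (a * T) := by
      intro x y hxy hx
      have hp1 : (p : L) ^ (a * T) ≠ 0 := pow_ne_zero _ (Nat.cast_ne_zero.2 hp.ne_zero)
      have h5 : x ^ 2 * y ^ 2 = (p : L) ^ (a * T) * (p : L) ^ (a * T) := by
        rw [← mul_pow, hxy, sq]
      rw [hx] at h5
      exact mul_left_cancel₀ hp1 h5
    by_cases hβ : α ^ T ∈ X
    · have hβ' : α' ^ T ∈ X := by
        refine mem_classes.2 ⟨⟨α', hα', rfl⟩, fun h5 => (mem_classes.1 hβ).2 ?_⟩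
        exact h4 (α' ^ T) (α ^ T) (by rw [mul_comm]; exact h3) h5
      rw [hwt1 α hα hβ, hwt1 α' hα' hβ', hodd _ hβ _ hβ' h3, Int.sign_neg]
      ring
    · have hβ' : α' ^ T ∉ X := by
        intro h5
        apply hβ
        refine mem_classes.2 ⟨⟨α, hα, rfl⟩, fun h6 => (mem_classes.1 h5).2 ?_⟩
        exact h4 _ _ h3 h6
      rw [hwt0 α hα hβ, hwt0 α' hα' hβ', add_zero]
  · intro l
    exact ⟨Finset.mem_image_of_mem _ (hAR _), hweig l⟩
  · -- the sum of the weights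
    have h1 : ∀ l, wt (μ l) = 1 := by
      intro l
      have h2 : (A (e.symm l).1) ^ T ∈ X := by
        rw [hAT]
        exact (e.symm l).1.2
      change wt (j (A (e.symm l).1)) = 1
      rw [hwt1 _ (hAR _) h2, hAT]
      have h3 : 0 < kk (e.symm l).1 := lt_of_le_of_lt (Nat.zero_le _) (e.symm l).2.2
      simp only [hkk] at h3
      have h4 : 0 < n (e.symm l).1 := by
        by_contra hcon
        push Not at hcon
        rw [Int.toNat_of_nonpos hcon] at h3
        simp at h3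
      exact Int.sign_eq_one_of_pos h4
    rw [Finset.sum_congr rfl fun l _ => h1 l, Finset.sum_const, Finset.card_univ,
      Fintype.card_fin, nsmul_eq_mul, mul_one]
    have h2 : 0 < r := by
      obtain ⟨x, hx, hnx⟩ := hne
      have h3 : ∃ y ∈ X, 0 < n y := by
        rcases lt_or_gt_of_ne hnx with h | h
        · obtain ⟨c, hc⟩ := exists_conj' (p := p) (L := L)
          refine ⟨c x, hX.stable x hx c, ?_⟩
          rw [hodd x hx (c x) (hX.stable x hx c) (hc _ x (hX.weil x hx))]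
          linarith
        · exact ⟨x, hx, h⟩
      obtain ⟨y, hy, hny⟩ := h3
      rw [hr]
      refine Finset.sum_pos' (fun _ _ => Nat.zero_le _) ⟨y, hy, ?_⟩
      exact Int.pos_iff_toNat_pos.1 hny
    exact_mod_cast (Nat.mul_pos two_pos h2).ne'

end

end Pool.Agent.L7h94.FP
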