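import Mathlib
import Pool.Agent.L7h94.FP.Exotic

/-!
# If there are no relations, all Tate classes are generated in degree two
-/

set_option autoImplicit false
set_option linter.unusedSectionVars false

namespace Pool.Agent.L7h94.FP

open NumberField Module Pool.Agent.H485R3 Pool.Agent.W524.SP Pool.Agent.W518.TC

noncomputable section

variable {p : ℕ} [Fact p.Prime] {L : Type} [Field L] [NumberField L] [IsGalois ℚ L]

/-- Only trivial relations. -/
def NoRelations (p b : ℕ) [Fact p.Prime] (X : Finset L) (e₀ : L →ₐ[ℚ] PadicAlgCl p) : Prop :=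
  ∀ m : L → ℕ,
    (∀ σ : L ≃ₐ[ℚ] L, ∑ x ∈ X, (m x : ℝ) * (2 * slope p b (e₀ (σ x)) - 1) = 0) →
      ∀ x ∈ X, ∀ y ∈ X, x * y = (p : L) ^ b → m x = m y

/-- A list of elements of the system, and of square roots of `p ^ b`, whose product is a power of
`p ^ b`, is balanced. -/
theorem balanced {b : ℕ} (hb : 0 < b) {X : Finset L} (hX : IsSystem p b X)
    (e₀ : L →ₐ[ℚ] PadicAlgCl p) (hnr : NoRelations p b X e₀) {Ω : Type} [Field Ω] [CharZero Ω]
    [DecidableEq Ω] (j : L →+* Ω) {t : ℕ} (ht : 0 < t)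
    (hpow : ∀ x ∈ X, ∀ y ∈ X, x ^ (2 * t) = y ^ (2 * t) → x = y)
    (hpow2 : ∀ x ∈ X, x ^ (2 * t) ≠ (p : L) ^ (b * t)) (η : Ω) (hη : η = (p : Ω) ^ (b * t))
    {m : ℕ} (l : List Ω) (hlen : l.length = 2 * m)
    (hl : ∀ z ∈ l, z = η ∨ ∃ x ∈ X, z = j x ^ (2 * t)) (hprod : l.prod = (η ^ 2) ^ m) :
    ∀ z : Ω, (z = η ∨ ∃ x ∈ X, z = j x ^ (2 * t)) →
      (η ^ 2 / z ≠ z → l.count z = l.count (η ^ 2 / z)) ∧
      (η ^ 2 / z = z → Even (l.count z)) := by
  classical
  have hp : p.Prime := Fact.out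
  have hη0 : η ≠ 0 := by
    rw [hη]
    exact pow_ne_zero _ (Nat.cast_ne_zero.2 hp.ne_zero)
  have hinj : Set.InjOn (fun x : L => j x ^ (2 * t)) X := by
    intro x hx y hy h
    apply hpow x hx y hy
    apply j.injective
    rw [map_pow, map_pow]
    exact h
  have hηX : η ∉ X.image (fun x => j x ^ (2 * t)) := by
    intro h
    obtain ⟨x, hx, hxη⟩ := Finset.mem_image.1 h
    apply hpow2 x hx
    apply j.injective
    rw [map_pow, hxη, hη, map_pow, map_natCast]
  let mm : L → ℕ := fun x => l.count (j x ^ (2 * t))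
  set E : Finset Ω := insert η (X.image fun x => j x ^ (2 * t)) with hE
  have hlE : ∀ z ∈ l, z ∈ E := by
    intro z hz
    rw [hE, Finset.mem_insert, Finset.mem_image]
    rcases hl z hz with h | ⟨x, hx, h⟩
    · exact Or.inl h
    · exact Or.inr ⟨x, hx, h.symm⟩
  have hprod' : l.prod = η ^ l.count η * ∏ x ∈ X, (j x ^ (2 * t)) ^ mm x := by
    rw [Finset.prod_list_count_of_subset l E fun z hz => hlE z (List.mem_toFinset.1 hz), hE,
      Finset.prod_insert hηX, Finset.prod_image hinj]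
  have hlen' : l.length = l.count η + ∑ x ∈ X, mm x := by
    have h1 : ∑ z ∈ E, (l : Multiset Ω).count z = Multiset.card (l : Multiset Ω) :=
      Multiset.sum_count_eq_card fun z hz => hlE z (by simpa using hz)
    rw [Multiset.coe_card] at h1
    rw [← h1, hE, Finset.sum_insert hηX, Finset.sum_image hinj]
    simp only [Multiset.coe_count]
    rfl
  -- the relation
  have hrel : (∏ x ∈ X, x ^ mm x) ^ (2 * t) = ((p : L) ^ b) ^ (t * ∑ x ∈ X, mm x) := by
    have h1 : η ^ l.count η * ∏ x ∈ X, (j x ^ (2 * t)) ^ mm x =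
        η ^ l.count η * η ^ (∑ x ∈ X, mm x) := by
      rw [← hprod', hprod, ← pow_add, ← hlen', hlen, pow_mul]
    have h2 := mul_left_cancel₀ (pow_ne_zero _ hη0) h1
    apply j.injective
    rw [map_pow, map_prod, ← Finset.prod_pow]
    have h3 : ∀ x ∈ X, j (x ^ mm x) ^ (2 * t) = (j x ^ (2 * t)) ^ mm x := by
      intro x _
      rw [map_pow, ← pow_mul, ← pow_mul, mul_comm]
    rw [Finset.prod_congr rfl h3, h2, hη, map_pow, map_pow, map_natCast, ← pow_mul, ← pow_mul]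
    congr 1
    ring
  have hbal := hnr mm fun σ => rel_of_torsion hb X hX.weil e₀ mm t ht hrel σ
  -- the conjugates
  obtain ⟨c, hc⟩ := exists_conj' (p := p) (L := L)
  have hcX : ∀ x ∈ X, c x ∈ X := fun x hx => hX.stable x hx c
  have hcc : ∀ x ∈ X, x * c x = (p : L) ^ b := fun x hx => hc b x (hX.weil x hx)
  have hcne : ∀ x ∈ X, c x ≠ x := by
    intro x hx h
    apply hX.notSq x hx
    have h1 := hcc x hx
    rw [h] at h1
    rw [sq, h1]
  have hcinv : ∀ x ∈ X, c (c x) = x := by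
    intro x hx
    have h1 := hcc x hx
    have h2 := hcc (c x) (hcX x hx)
    rw [mul_comm] at h1
    exact mul_left_cancel₀ (hX.weil _ (hcX x hx)).ne_zero (h2.trans h1.symm)
  have hconj : ∀ x ∈ X, η ^ 2 / j x ^ (2 * t) = j (c x) ^ (2 * t) := by
    intro x hx
    have h0 : j x ≠ 0 := (map_ne_zero j).2 (hX.weil x hx).ne_zero
    rw [div_eq_iff (pow_ne_zero _ h0), ← mul_pow, ← map_mul, mul_comm (c x) x, hcc x hx, hη,
      map_pow, map_natCast, ← pow_mul, ← pow_mul]
    congr 1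
    ring
  rintro z (rfl | ⟨x, hx, rfl⟩)
  · -- the self-dual one
    have h1 : z ^ 2 / z = z := by
      rw [sq, mul_div_assoc, div_self hη0, mul_one]
    refine ⟨fun h => absurd h1 h, fun _ => ?_⟩
    have h2 : Even (∑ x ∈ X, mm x) := by
      have h3 : ((∑ x ∈ X, mm x : ℕ) : ZMod 2) = 0 := by
        rw [Nat.cast_sum]
        refine Finset.sum_involution (fun x _ => c x) ?_ (fun x hx _ => hcne x hx)
          (fun x hx => hcX x hx) (fun x hx => hcinv x hx)
        intro x hx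
        rw [hbal x hx (c x) (hcX x hx) (hcc x hx), ← two_mul]
        have : (2 : ZMod 2) = 0 := by decide
        rw [this, zero_mul]
      exact (ZMod.natCast_eq_zero_iff_even).1 h3
    have h4 : Even (l.count z + ∑ x ∈ X, mm x) := by
      rw [← hlen', hlen]
      exact even_two_mul m
    exact (Nat.even_add.1 h4).2 h2
  · rw [hconj x hx]
    refine ⟨fun _ => hbal x hx (c x) (hcX x hx) (hcc x hx), fun h => ?_⟩
    exact absurd (hinj (hcX x hx) hx h) (hcne x hx)

/-- If there are no relations, all Tate classes are generated in degree two. -/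
theorem generated {a T : ℕ} (ha : 0 < a) (hT0 : 0 < T)
    (hT : ∀ x : L, (∃ n : ℕ, 0 < n ∧ x ^ n = 1) → x ^ T = 1)
    {R : Finset L} (hR : ∀ α ∈ R, IsWeil p a α) (hst : ∀ α ∈ R, ∀ σ : L ≃ₐ[ℚ] L, σ α ∈ R)
    (e₀ : L →ₐ[ℚ] PadicAlgCl p) (hnr : NoRelations p (a * T) (classes p a T R) e₀)
    {Ω W : Type} [Field Ω] [CharZero Ω] [AddCommGroup W] [Module Ω W] [FiniteDimensional Ω W]
    (j : L →+* Ω) (Φ : Module.End Ω W) {r : ℕ} (hr : 0 < r)
    (hspan : Submodule.span Ω {w : W | ∃ μ : Ω, Φ w = μ • w ∧ ∃ t : ℕ, 0 < t ∧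
      ((∃ α ∈ R, μ ^ t = (j α) ^ (r * t)) ∨ μ ^ (2 * t) = ((p : Ω) ^ a) ^ (r * t))} = ⊤) :
    NoExotic Φ ((p ^ a) ^ r) := by
  classical
  have hp : p.Prime := Fact.out
  set X := classes p a T R with hXdef
  have hX : IsSystem p (a * T) X := isSystem_classes hR hst
  have hb : 0 < a * T := Nat.mul_pos ha hT0
  rintro m x ⟨hx, s, hs, hFx⟩
  -- a common exponent
  obtain ⟨t₀, ht₀, hspan'⟩ : ∃ t₀ : ℕ, 0 < t₀ ∧ Submodule.span Ω {w : W | ∃ μ : Ω, Φ w = μ • w ∧
      ((∃ α ∈ R, μ ^ t₀ = (j α) ^ (r * t₀)) ∨ μ ^ (2 * t₀) = ((p : Ω) ^ a) ^ (r * t₀))} = ⊤ := by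
    let Ev : Set Ω := {μ | Φ.HasEigenvalue μ}
    have hfin : Ev.Finite := Module.End.finite_hasEigenvalue Φ
    let cond : Ω → ℕ → Prop := fun μ t => (∃ α ∈ R, μ ^ t = (j α) ^ (r * t)) ∨
      μ ^ (2 * t) = ((p : Ω) ^ a) ^ (r * t)
    let tt : Ω → ℕ := fun μ => if h : ∃ t, 0 < t ∧ cond μ t then h.choose else 1
    have htt0 : ∀ μ, 0 < tt μ := by
      intro μ
      simp only [tt]
      split_ifs with h
      · exact h.choose_spec.1
      · exact one_pos
    have htt : ∀ μ, (∃ t, 0 < t ∧ cond μ t) → cond μ (tt μ) := by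
      intro μ h
      simp only [tt]
      rw [dif_pos h]
      exact h.choose_spec.2
    have hmul : ∀ μ t u, cond μ t → cond μ (t * u) := by
      rintro μ t u (⟨α, hα, h⟩ | h)
      · left
        refine ⟨α, hα, ?_⟩
        rw [pow_mul, h, ← pow_mul, mul_assoc]
      · right
        rw [← mul_assoc, pow_mul, h, ← pow_mul, mul_assoc]
    refine ⟨∏ μ ∈ hfin.toFinset, tt μ, Finset.prod_pos fun μ _ => htt0 μ, ?_⟩
    rw [eq_top_iff, ← hspan, Submodule.span_le]
    rintro w ⟨μ, hw, ht⟩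
    by_cases hw0 : w = 0
    · rw [hw0]
      exact Submodule.zero_mem _
    · refine Submodule.subset_span ⟨μ, hw, ?_⟩
      have hμ : μ ∈ hfin.toFinset := by
        rw [Set.Finite.mem_toFinset]
        exact Module.End.hasEigenvalue_of_hasEigenvector
          ⟨Module.End.mem_eigenspace_iff.2 hw, hw0⟩
      obtain ⟨u, hu⟩ := Finset.dvd_prod_of_mem tt hμ
      rw [hu]
      exact hmul μ (tt μ) u (htt μ ht)
  -- the power of the Frobenius
  set t := r * t₀ * s with ht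
  have htpos : 0 < t := Nat.mul_pos (Nat.mul_pos hr ht₀) hs
  set η : Ω := (p : Ω) ^ (a * T * t) with hη
  have hη0 : η ≠ 0 := pow_ne_zero _ (Nat.cast_ne_zero.2 hp.ne_zero)
  set h := 2 * t₀ * T * s with hh
  have hhpos : 0 < h := by positivity
  set Θ : Module.End Ω W := Φ ^ h with hΘ
  have hQ : (((p ^ a) ^ r : ℕ) : Ω) ^ h = η ^ 2 := by
    rw [hη, hh, ht]
    push_cast
    rw [← pow_mul, ← pow_mul, ← pow_mul]
    congr 1
    ring
  let E : Set Ω := {z | z = η ∨ ∃ x ∈ X, z = j x ^ (2 * t)}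
  have hpowX : ∀ x ∈ X, ∀ y ∈ X, x ^ (2 * t) = y ^ (2 * t) → x = y := by
    intro x hx y hy hxy
    obtain ⟨⟨α, hα, rfl⟩, _⟩ := mem_classes.1 hx
    obtain ⟨⟨β, hβ, rfl⟩, _⟩ := mem_classes.1 hy
    have hβ0 : β ≠ 0 := (hR β hβ).ne_zero
    have h1 : (α / β) ^ T = 1 := by
      refine hT _ ⟨T * (2 * t), Nat.mul_pos hT0 (Nat.mul_pos two_pos htpos), ?_⟩
      have h2 : α ^ (T * (2 * t)) = β ^ (T * (2 * t)) := by
        rw [pow_mul, pow_mul β]
        exact hxy
      rw [div_pow, h2, div_self (pow_ne_zero _ hβ0)]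
    rwa [div_pow, div_eq_one_iff_eq (pow_ne_zero _ hβ0)] at h1
  have hpow2 : ∀ x ∈ X, x ^ (2 * t) ≠ (p : L) ^ (a * T * t) := by
    intro x hx hxt
    obtain ⟨⟨α, hα, rfl⟩, h2⟩ := mem_classes.1 hx
    apply h2
    have hp0 : (p : L) ^ a ≠ 0 := pow_ne_zero _ (Nat.cast_ne_zero.2 hp.ne_zero)
    have h1 : (α ^ 2 / (p : L) ^ a) ^ T = 1 := by
      refine hT _ ⟨T * t, Nat.mul_pos hT0 htpos, ?_⟩
      rw [div_pow, ← pow_mul, ← pow_mul, div_eq_one_iff_eq (pow_ne_zero _
        (Nat.cast_ne_zero.2 hp.ne_zero))]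
      calc α ^ (2 * (T * t)) = (α ^ T) ^ (2 * t) := by
            rw [← pow_mul]
            congr 1
            ring
        _ = (p : L) ^ (a * T * t) := hxt
        _ = (p : L) ^ (a * (T * t)) := by rw [mul_assoc]
    rw [div_pow, div_eq_one_iff_eq (pow_ne_zero _ hp0), ← pow_mul, ← pow_mul] at h1
    rw [← pow_mul, mul_comm T 2]
    exact h1
  have hEspan : Submodule.span Ω {w : W | ∃ μ ∈ E, Θ w = μ • w} = ⊤ := by
    rw [eq_top_iff, ← hspan', Submodule.span_le]
    rintro w ⟨μ, hw, hμ⟩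
    refine Submodule.subset_span ⟨μ ^ h, ?_, pow_apply_eigen Φ hw h⟩
    rcases hμ with ⟨α, hα, hμ⟩ | hμ
    · have h1 : μ ^ h = j (α ^ T) ^ (2 * t) := by
        have h2 : μ ^ h = (μ ^ t₀) ^ (2 * T * s) := by
          rw [← pow_mul, hh]
          congr 1
          ring
        rw [h2, hμ, map_pow, ← pow_mul, ← pow_mul, ht]
        congr 1
        ring
      by_cases hβ : α ^ T ∈ X
      · exact Or.inr ⟨α ^ T, hβ, h1⟩
      · left
        have h3 : (α ^ T) ^ 2 = (p : L) ^ (a * T) := by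
          by_contra h4
          exact hβ (mem_classes.2 ⟨⟨α, hα, rfl⟩, h4⟩)
        rw [h1, pow_mul, ← map_pow, h3, map_pow, map_natCast, hη, ← pow_mul]
    · left
      have h2 : μ ^ h = (μ ^ (2 * t₀)) ^ (T * s) := by
        rw [← pow_mul, hh]
        congr 1
        ring
      rw [h2, hμ, hη, ht, ← pow_mul, ← pow_mul]
      congr 1
      ring
  have hΘx : ExteriorAlgebra.map (Θ ^ 1) x = ((η ^ 2) ^ m) ^ 1 • x := by
    rw [pow_one, pow_one]
    have h1 : ∀ u : ℕ, ExteriorAlgebra.map (Φ ^ (s * u)) x =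
        ((((p ^ a) ^ r : ℕ) : Ω) ^ m) ^ (s * u) • x := by
      intro u
      induction u with
      | zero =>
        rw [mul_zero, pow_zero, pow_zero, one_smul]
        change ExteriorAlgebra.map LinearMap.id x = x
        rw [ExteriorAlgebra.map_id]
        rfl
      | succ u ih =>
        have h2 : ExteriorAlgebra.map (Φ ^ (s * (u + 1))) x =
            ExteriorAlgebra.map (Φ ^ s) (ExteriorAlgebra.map (Φ ^ (s * u)) x) := by
          rw [mul_add, mul_one, add_comm, pow_add]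
          have h3 := ExteriorAlgebra.map_comp_map (R := Ω) (Φ ^ (s * u)) (Φ ^ s)
          exact (DFunLike.congr_fun h3 x).symm
        rw [h2, ih, map_smul, hFx, smul_smul, mul_add, mul_one, pow_add]
    have h2 : h = s * (2 * t₀ * T) := by
      rw [hh]
      ring
    have h3 : ((η ^ 2) ^ m : Ω) = ((((p ^ a) ^ r : ℕ) : Ω) ^ m) ^ h := by
      rw [← hQ, pow_right_comm]
    rw [hΘ, h3, h2, h1]
  have hmem := mem_adjoin_of_balanced' Θ (η ^ 2) (pow_ne_zero _ hη0) E (by
      rintro z (rfl | ⟨y, hy, rfl⟩)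
      · exact hη0
      · exact pow_ne_zero _ ((map_ne_zero j).2 (hX.weil y hy).ne_zero)) hEspan m 1 (by
      intro l hlen hl hprod z hz
      rw [pow_one, pow_one] at hprod
      exact balanced hb hX e₀ hnr j htpos hpowX hpow2 η hη l hlen hl hprod z hz) x hx hΘx
  refine Algebra.adjoin_mono ?_ hmem
  rintro y ⟨hy1, hy2⟩
  refine ⟨by rw [mul_one]; exact hy1, h, hhpos, ?_⟩
  rw [pow_one, hQ]
  exact hy2

end

end Pool.Agent.L7h94.FP
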