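import Mathlib
import Pool.Agent.L7h94.FP.Gen

/-!
# The first power with an exotic Tate class
-/

set_option autoImplicit false
set_option linter.unusedSectionVars false

namespace Pool.Agent.L7h94.FP

open NumberField Module Polynomial Pool.Agent.H485R3 Pool.Agent.W524.SP Pool.Agent.W518.TC

noncomputable section

variable {p : ℕ} [Fact p.Prime]

theorem slope_scale {a T : ℕ} (hT : 0 < T) (y : PadicAlgCl p) :
    Pool.Agent.W524.SP.slope p (a * T) (y ^ T) = Pool.Agent.W524.SP.slope p a y := by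
  have hp1 : (1 : ℝ) < (p : ℝ) := by exact_mod_cast (Fact.out : p.Prime).one_lt
  have hTR : (T : ℝ) ≠ 0 := by exact_mod_cast hT.ne'
  unfold Pool.Agent.W524.SP.slope
  rw [norm_pow, Real.logb, Real.logb, Real.log_pow, Real.log_pow, Real.log_pow]
  push_cast
  rw [mul_comm (T : ℝ) (Real.log ‖y‖), mul_right_comm (a : ℝ) (T : ℝ), mul_div_mul_right _ _ hTR]

theorem numeric_final {k g D : ℕ} (hk : 1 ≤ k) (hg : 1 ≤ g) (hD : 1 ≤ D) :
    2 * Real.exp (14 * √(k * g) * Real.log (2 * g) * Real.log (2 * g * D)) ≤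
      Real.exp (16 * √(k * g) * Real.log (2 * g) * Real.log (2 * g * D)) := by
  have hs := Pool.Agent.L7h94.FE.one_le_q hk hg
  have h1 := Pool.Agent.L7h94.FE.two_thirds hg
  have hgR : (1 : ℝ) ≤ g := by exact_mod_cast hg
  have hDR : (1 : ℝ) ≤ D := by exact_mod_cast hD
  have h2 : Real.log (2 * g) ≤ Real.log (2 * g * D) :=
    Real.log_le_log (by linarith) (le_mul_of_one_le_right (by linarith) hDR)
  set s := √((k : ℝ) * g)
  set Λ := Real.log (2 * (g : ℝ))
  set Λ' := Real.log (2 * (g : ℝ) * D)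
  have h3 : 0.69 * 0.69 ≤ Λ * Λ' := mul_le_mul h1.le (h1.le.trans h2) (by norm_num) (by linarith)
  have h4 : Λ * Λ' ≤ s * (Λ * Λ') := le_mul_of_one_le_left (by linarith) hs
  have h5 : Real.log 2 ≤ 2 * (s * (Λ * Λ')) := by
    have := Real.log_two_lt_d9
    linarith
  have h6 : (2 : ℝ) ≤ Real.exp (2 * (s * (Λ * Λ'))) := by
    rw [← Real.log_le_iff_le_exp two_pos]
    exact h5
  calc 2 * Real.exp (14 * s * Λ * Λ') ≤ Real.exp (2 * (s * (Λ * Λ'))) *
        Real.exp (14 * s * Λ * Λ') := mul_le_mul_of_nonneg_right h6 (Real.exp_pos _).le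
    _ = Real.exp (16 * s * Λ * Λ') := by
      rw [← Real.exp_add]
      congr 1
      ring

theorem aux {L : Type} [Field L] [NumberField L] [IsGalois ℚ L]
    {a : ℕ} (ha : 0 < a) (P : ℤ[X]) (hP : P.Monic)
    (hw : ∀ z : ℂ, (P.map (Int.castRingHom ℂ)).IsRoot z → ‖z‖ ^ 2 = (p : ℝ) ^ a)
    (hsplit : (P.map (Int.castRingHom L)).Splits)
    {g k D N : ℕ} (hg : P.natDegree = 2 * g) (hD : 1 ≤ D) (hslope : SlopeDenominator p a P D)
    (f : Fin k → ℚ[X]) (hf : ∀ i, Irreducible (f i))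
    (hfP : ∀ z : ℂ, (P.map (Int.castRingHom ℂ)).IsRoot z → ∃ i, aeval z (f i) = 0)
    (hN : Real.exp (16 * √(k * g) * Real.log (2 * g) * Real.log (2 * g * D)) ≤ N)
    {Ω V : Type} [Field Ω] [IsAlgClosed Ω] [CharZero Ω] [AddCommGroup V] [Module Ω V]
    (F : Module.End Ω V) (hV : IsH1 P V F) (hgen : NoExotic (power F N) (p ^ a))
    {r : ℕ} (hr : 0 < r) {W : Type} [AddCommGroup W] [Module Ω W] [FiniteDimensional Ω W]
    (Φ : Module.End Ω W) (hW : FactorsAmong P (p ^ a) r Φ) : NoExotic Φ ((p ^ a) ^ r) := by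
  classical
  have hp : p.Prime := Fact.out
  have hfin := hV.fin
  set R : Finset L := (P.map (Int.castRingHom L)).roots.toFinset with hRdef
  have hPL0 : P.map (Int.castRingHom L) ≠ 0 := (hP.map _).ne_zero
  have hRmem : ∀ α : L, α ∈ R ↔ (P.map (Int.castRingHom L)).IsRoot α := by
    intro α
    rw [hRdef, Multiset.mem_toFinset, mem_roots hPL0]
  have hmapRoot : ∀ {K : Type} [Field K] (φ : L →+* K) (α : L), α ∈ R →
      (P.map (Int.castRingHom K)).IsRoot (φ α) := by
    intro K _ φ α hα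
    have h1 : P.map (Int.castRingHom K) = (P.map (Int.castRingHom L)).map φ := by
      rw [Polynomial.map_map]; congr 1; exact RingHom.ext_int _ _
    rw [h1]
    exact ((hRmem α).1 hα).map
  have hR : ∀ α ∈ R, IsWeil p a α := by
    intro α hα
    refine ⟨⟨P, hP, ?_⟩, fun φ => hw _ (hmapRoot φ α hα)⟩
    have h1 := (hRmem α).1 hα
    rw [IsRoot.def, eval_map] at h1
    exact h1
  have hst : ∀ α ∈ R, ∀ σ : L ≃ₐ[ℚ] L, σ α ∈ R := by
    intro α hα σ
    rw [hRmem]
    exact hmapRoot (σ : L →+* L) α hα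
  obtain ⟨T, hT0, hT⟩ := Pool.Agent.H485R3.exists_torsion L
  let e₀ : L →ₐ[ℚ] PadicAlgCl p := IsAlgClosed.lift
  let j : L →+* Ω := (IsAlgClosed.lift (R := ℚ) (S := L) (M := Ω) : L →ₐ[ℚ] Ω)
  -- the roots in `Ω`
  have hroots : ∀ μ : Ω, (P.map (Int.castRingHom Ω)).IsRoot μ → ∃ α ∈ R, j α = μ := by
    intro μ hμ
    have h1 : P.map (Int.castRingHom Ω) = (P.map (Int.castRingHom L)).map j := by
      rw [Polynomial.map_map]; congr 1; exact RingHom.ext_int _ _
    have h2 : μ ∈ ((P.map (Int.castRingHom L)).map j).roots := by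
      rw [← h1, mem_roots (hP.map _).ne_zero]
      exact hμ
    rw [hsplit.roots_map_of_injective j.injective, Multiset.mem_map] at h2
    obtain ⟨α, hα, h3⟩ := h2
    exact ⟨α, Multiset.mem_toFinset.2 hα, h3⟩
  have hspan : Submodule.span Ω {v : V | ∃ α ∈ R, F v = j α • v} = ⊤ := by
    rw [eq_top_iff, ← hV.semisimple.iSup_eigenspace_eq_top]
    refine iSup_le fun μ => ?_
    intro v hv
    by_cases hv0 : v = 0
    · rw [hv0]
      exact Submodule.zero_mem _
    have h1 : F.HasEigenvalue μ := Module.End.hasEigenvalue_of_hasEigenvector ⟨hv, hv0⟩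
    rw [Module.End.hasEigenvalue_iff_isRoot_charpoly, hV.charpoly] at h1
    obtain ⟨α, hα, rfl⟩ := hroots μ h1
    exact Submodule.subset_span ⟨α, hα, Module.End.mem_eigenspace_iff.1 hv⟩
  have hev : ∀ α ∈ R, ∃ v : V, v ≠ 0 ∧ F v = j α • v := by
    intro α hα
    have h1 : F.HasEigenvalue (j α) := by
      rw [Module.End.hasEigenvalue_iff_isRoot_charpoly, hV.charpoly]
      exact hmapRoot j α hα
    obtain ⟨v, hv, hv0⟩ := h1.exists_hasEigenvector
    exact ⟨v, hv0, Module.End.mem_eigenspace_iff.1 hv⟩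
  by_cases hnr : NoRelations p (a * T) (classes p a T R) e₀
  · -- no relations
    refine generated ha hT0 hT hR hst e₀ hnr j Φ hr ?_
    rw [eq_top_iff, ← hW, Submodule.span_le]
    rintro w ⟨μ, hμ, t, ht, h⟩
    refine Submodule.subset_span ⟨μ, hμ, t, ht, ?_⟩
    rcases h with ⟨α, hα, h⟩ | h
    · left
      obtain ⟨α', hα', rfl⟩ := hroots α hα
      exact ⟨α', hα', h⟩
    · right
      rw [h]
      push_cast
      rfl
  · -- there are relations
    exfalso
    unfold NoRelations at hnr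
    push Not at hnr
    obtain ⟨m, hm, x, hx, y, hy, hxy, hmn⟩ := hnr
    set X := classes p a T R with hXdef
    have hX : IsSystem p (a * T) X := isSystem_classes hR hst
    have hb : 0 < a * T := Nat.mul_pos ha hT0
    have hcard : X.card ≤ 2 * g := by
      calc X.card ≤ (R.image fun α => α ^ T).card := by
            rw [hXdef]
            exact Finset.card_filter_le _ _
        _ ≤ R.card := Finset.card_image_le
        _ ≤ (P.map (Int.castRingHom L)).roots.card := Multiset.toFinset_card_le _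
        _ ≤ (P.map (Int.castRingHom L)).natDegree := card_roots' _
        _ = 2 * g := by rw [hP.natDegree_map, hg]
    have hg1 : 1 ≤ g := by
      have h1 := Finset.card_pos.2 ⟨x, hx⟩
      omega
    have hint : ∀ x ∈ X, ∃ n : ℤ, (D : ℝ) * Pool.Agent.W524.SP.slope p (a * T) (e₀ x) = n := by
      intro x hx
      obtain ⟨⟨α, hα, rfl⟩, _⟩ := mem_classes.1 hx
      rw [map_pow, slope_scale hT0]
      exact hslope _ (hmapRoot (e₀ : L →+* PadicAlgCl p) α hα)
    -- representatives
    let rep : Fin k → L := fun i => if h : ∃ α ∈ R, aeval α (f i) = 0 then h.choose ^ T else 0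
    let O : Finset L := Finset.univ.image rep
    have hOk : O.card ≤ k := by
      refine Finset.card_image_le.trans ?_
      rw [Finset.card_univ, Fintype.card_fin]
    obtain ⟨φ⟩ : Nonempty (L →+* ℂ) := inferInstance
    have hfR : ∀ α ∈ R, ∃ i, aeval α (f i) = 0 := by
      intro α hα
      obtain ⟨i, hi⟩ := hfP _ (hmapRoot φ α hα)
      refine ⟨i, φ.injective ?_⟩
      rw [map_zero, ← hi]
      have h1 := Polynomial.aeval_algHom_apply φ.toRatAlgHom α (f i)
      exact h1.symm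
    have hO : ∀ x ∈ X, ∃ y ∈ O, ∃ σ : L ≃ₐ[ℚ] L, σ y = x := by
      intro x hx
      obtain ⟨⟨α, hα, rfl⟩, _⟩ := mem_classes.1 hx
      obtain ⟨i, hi⟩ := hfR α hα
      have h : ∃ α ∈ R, aeval α (f i) = 0 := ⟨α, hα, hi⟩
      refine ⟨rep i, Finset.mem_image_of_mem _ (Finset.mem_univ i), ?_⟩
      have h1 : rep i = h.choose ^ T := dif_pos h
      obtain ⟨σ, hσ⟩ := exists_gal_root (hf i) h.choose_spec.2 hi
      exact ⟨σ, by rw [h1, map_pow, hσ]⟩
    have hk1 : 1 ≤ k := by
      obtain ⟨y, hy, _⟩ := hO x hx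
      obtain ⟨i, _, _⟩ := Finset.mem_image.1 hy
      exact Nat.one_le_iff_ne_zero.2 (by rintro rfl; exact i.elim0)
    obtain ⟨n, hodd, hne, hrel, hbd⟩ := exists_small hb hX e₀ hD hint hcard O hOk hO m hm
      ⟨x, hx, y, hy, hxy, hmn⟩
    refine exotic ha hT0 hT hR hst e₀ j F hspan hev n hodd hne hrel (N := N) ?_ hgen
    intro x hx
    have h1 := hbd x hx
    have h2 := numeric_final hk1 hg1 hD
    have h3 : 2 * |(n x : ℝ)| ≤ N := by linarith
    exact_mod_cast h3

/-- **The first power with an exotic Tate class.** -/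
theorem first_exotic {a : ℕ} (ha : 0 < a) (P : ℤ[X]) (hP : P.Monic)
    (hw : ∀ z : ℂ, (P.map (Int.castRingHom ℂ)).IsRoot z → ‖z‖ ^ 2 = (p : ℝ) ^ a)
    {g k D N : ℕ} (hg : P.natDegree = 2 * g) (hD : 1 ≤ D) (hslope : SlopeDenominator p a P D)
    (f : Fin k → ℚ[X]) (hf : ∀ i, Irreducible (f i))
    (hfP : ∀ z : ℂ, (P.map (Int.castRingHom ℂ)).IsRoot z → ∃ i, aeval z (f i) = 0)
    (hN : Real.exp (16 * √(k * g) * Real.log (2 * g) * Real.log (2 * g * D)) ≤ N)
    {Ω V : Type} [Field Ω] [IsAlgClosed Ω] [CharZero Ω] [AddCommGroup V] [Module Ω V]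
    (F : Module.End Ω V) (hV : IsH1 P V F) (hgen : NoExotic (power F N) (p ^ a))
    {r : ℕ} (hr : 0 < r) {W : Type} [AddCommGroup W] [Module Ω W] [FiniteDimensional Ω W]
    (Φ : Module.End Ω W) (hW : FactorsAmong P (p ^ a) r Φ) : NoExotic Φ ((p ^ a) ^ r) := by
  set PQ : ℚ[X] := P.map (Int.castRingHom ℚ) with hPQ
  have hLN : NumberField PQ.SplittingField :=
    { to_charZero := charZero_of_injective_algebraMap (algebraMap ℚ PQ.SplittingField).injective
      to_finiteDimensional := inferInstance }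
  have hsf : IsSplittingField ℚ PQ.SplittingField PQ := Polynomial.IsSplittingField.splittingField PQ
  have hnormal : Normal ℚ PQ.SplittingField := Normal.of_isSplittingField PQ
  have hGal : IsGalois ℚ PQ.SplittingField := ⟨⟩
  have hsplit : (P.map (Int.castRingHom PQ.SplittingField)).Splits := by
    have h1 := SplittingField.splits PQ
    convert h1 using 1
    rw [hPQ, Polynomial.map_map]; congr 1
  exact aux (L := PQ.SplittingField) ha P hP hw hsplit hg hD hslope f hf hfP hN F hV hgen hr Φ hW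

end

end Pool.Agent.L7h94.FP
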